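import Pool.Agent.Helper34.SQ.GoalsT

/-!
Project SQ (MP_bb32d1_al), packet SW: rotation.
-/

set_option autoImplicit false

namespace Pool.Agent.Helper54.SQ

noncomputable section

open Matrix Pool.Agent.Helper19.SQ Pool.Agent.Helper34.SQ

variable {A : Type} [Ring A] [Algebra ℂ A] {ι : Type} [Fintype ι] [DecidableEq ι]

/-- the rotation. -/
def om (f : A →ₐ[ℂ] Matrix ι ι A) (σ : ι × ι → (A →ₗ[ℂ] ℂ)) : ι × ι → (A →ₗ[ℂ] ℂ) :=
  fun x => ∑ k, σ (x.2, k) ∘ₗ (Matrix.entryLinearMap ℂ A k x.1) ∘ₗ f.toLinearMap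

theorem om_apply (f : A →ₐ[ℂ] Matrix ι ι A) (σ : ι × ι → (A →ₗ[ℂ] ℂ)) (x : ι × ι) (b : A) :
    om f σ x b = ∑ k, σ (x.2, k) (f b k x.1) := by
  simp [om, LinearMap.sum_apply]

/-- the common computation: `∑_(k,r) σ_(k,r)(f(g(x)_kj c)_rp) = ∑_s σ_(j,s)(f(c)_sp x)`. -/
theorem key (f g : A →ₐ[ℂ] Matrix ι ι A) (σ : ι × ι → (A →ₗ[ℂ] ℂ))
    (t1 : ∀ a b y, act σ (D1 f g a) y b = σ y (b * a)) (x c : A) (j p : ι) :
    ∑ k, ∑ r, σ (k, r) (f (g x k j * c) r p) = ∑ s, σ (j, s) (f c s p * x) := by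
  have h1 : ∀ k r, σ (k, r) (f (g x k j * c) r p) =
      ∑ s, σ (k, r) (f (g x k j) r s * f c s p) := by
    intro k r
    rw [map_mul, Matrix.mul_apply, map_sum]
  have h2 : ∀ s, ∑ k, ∑ r, σ (k, r) (f (g x k j) r s * f c s p) = σ (j, s) (f c s p * x) := by
    intro s
    rw [← t1, act_apply, Fintype.sum_prod_type]
    rfl
  simp_rw [h1]
  rw [← Finset.sum_congr rfl fun s _ => h2 s]
  rw [Finset.sum_comm]
  rw [Finset.sum_congr rfl fun r _ => Finset.sum_comm]
  rw [Finset.sum_comm]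
  refine Finset.sum_congr rfl fun s _ => ?_
  rw [Finset.sum_comm]

theorem rot (f g : A →ₐ[ℂ] Matrix ι ι A) (φ : A ≃ₐ[ℂ] A) (κ : ι → ℂ) (hκ : ∀ i, κ i ≠ 0)
    (hf : ∀ a i j, f (φ a) i j = (κ i * (κ j)⁻¹) • φ (f a i j)) (e e' : A)
    (he : ∀ a, e * a = a * e) (ζ : ℂ) (σ : ι × ι → (A →ₗ[ℂ] ℂ))
    (t1 : ∀ a b y, act σ (D1 f g a) y b = σ y (b * a))
    (t2 : ∀ b y, ((κ y.1)⁻¹ * κ y.2) * σ y (φ b) = ζ * σ y b)
    (t3 : ∀ b y, σ y (b * e') = σ y b)
    (t4 : act σ (X1 (f e)) = σ) :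
    (∀ a b y, act (om f σ) (D1 g f a) y b = om f σ y (b * a)) ∧
    (∀ b y, (κ y.1 * (κ y.2)⁻¹) * om f σ y (φ b) = ζ * om f σ y b) ∧
    (∀ b y, om f σ y (b * e) = om f σ y b) ∧
    (act (om f σ) (X1 (g e')) = om f σ) ∧
    (om f σ = 0 → σ = 0) := by
  refine ⟨?_, ?_, ?_, ?_, ?_⟩
  · rintro a b ⟨p, j⟩
    rw [act_apply, Fintype.sum_prod_type]
    have h1 : ∀ p' : ι, ∑ j', om f σ (p', j') (D1 g f a (p', j') (p, j) * b) =
        ∑ s, σ (j, s) (f b s p' * f a p' p) := by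
      intro p'
      have h2 := key f g σ t1 (f a p' p) b j p'
      rw [← h2]
      refine Finset.sum_congr rfl fun j' _ => ?_
      rw [om_apply]
      rfl
    rw [Finset.sum_congr rfl fun p' _ => h1 p', Finset.sum_comm, om_apply]
    refine Finset.sum_congr rfl fun s _ => ?_
    rw [map_mul, Matrix.mul_apply, map_sum]
  · rintro b ⟨p, j⟩
    rw [om_apply, om_apply, Finset.mul_sum, Finset.mul_sum]
    refine Finset.sum_congr rfl fun k _ => ?_
    have h1 := t2 (f b k p) (j, k)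
    simp only at h1 ⊢
    rw [← h1, hf, map_smul, smul_eq_mul]
    have h2 := hκ p
    field_simp
  · rintro b ⟨p, j⟩
    rw [om_apply, om_apply]
    simp only
    have h1 : ∀ s, σ (j, s) (f b s p) = ∑ k, σ (j, k) (f e k s * f b s p) := by
      intro s
      conv_lhs => rw [← t4]
      rw [act_apply, Fintype.sum_prod_type]
      rw [Finset.sum_eq_single j]
      · refine Finset.sum_congr rfl fun k _ => ?_
        simp [X1]
      · intro j' _ hj'
        refine Finset.sum_eq_zero fun k _ => ?_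
        simp [X1, hj']
      · intro h
        exact absurd (Finset.mem_univ _) h
    rw [Finset.sum_congr rfl fun s _ => h1 s, Finset.sum_comm]
    refine Finset.sum_congr rfl fun k _ => ?_
    rw [← he, map_mul, Matrix.mul_apply, map_sum]
  · funext y
    obtain ⟨p, j⟩ := y
    ext b
    rw [act_apply, Fintype.sum_prod_type, Finset.sum_eq_single p]
    · have h2 := key f g σ t1 e' b j p
      have h3 : ∀ k, om f σ (p, k) (X1 (g e') (p, k) (p, j) * b) =
          ∑ r, σ (k, r) (f (g e' k j * b) r p) := by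
        intro k
        rw [om_apply]
        simp [X1]
      rw [Finset.sum_congr rfl fun k _ => h3 k, h2, om_apply]
      exact Finset.sum_congr rfl fun s _ => t3 _ _
    · intro p' _ hp'
      refine Finset.sum_eq_zero fun k _ => ?_
      simp [X1, hp']
    · intro h
      exact absurd (Finset.mem_univ _) h
  · intro h
    funext y
    obtain ⟨j, p⟩ := y
    ext b
    have h1 : om g (om f σ) (j, p) b = σ (j, p) b := by
      have h2 := t1 b 1 (j, p)
      rw [one_mul] at h2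
      rw [← h2, act_apply, om_apply, Fintype.sum_prod_type]
      refine Finset.sum_congr rfl fun k _ => ?_
      rw [om_apply]
      refine Finset.sum_congr rfl fun r _ => ?_
      rw [mul_one]
      rfl
    rw [← h1, h, om_apply]
    simp

theorem t_sw : S_SW := by
  intro A _ _ ι _ _ l C ζ c m
  have hm : m + al c - al c = m := by abel
  constructor
  · intro h σ hσ
    obtain ⟨r1, r2, r3, r4, r5⟩ := rot C.δ C.ε C.φ (fun i => (C.θ i : ℂ)) (fun i => (C.θ i).ne_zero)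
      C.φδ (C.e m) (C.e (m + al c)) (C.e_cen m) ζ σ hσ.t1 hσ.t2 hσ.t3
      (by have := hσ.t4; rwa [hm] at this)
    exact r5 (h _ ⟨r1, r2, r3, r4⟩)
  · intro h σ hσ
    obtain ⟨r1, r2, r3, r4, r5⟩ := rot C.ε C.δ C.φ (fun i => (C.θ i : ℂ)⁻¹)
      (fun i => inv_ne_zero (C.θ i).ne_zero)
      (fun a i j => by rw [inv_inv]; exact C.φε a i j) (C.e (m + al c)) (C.e m)
      (C.e_cen (m + al c)) ζ σ hσ.t1
      (fun b y => by rw [inv_inv]; exact hσ.t2 b y) hσ.t3 hσ.t4
    refine r5 (h _ ⟨r1, ?_, r3, ?_⟩)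
    · intro b y
      have := r2 b y
      rwa [inv_inv] at this
    · rw [hm]
      exact r4

end

end Pool.Agent.Helper54.SQ
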