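import Pool.Agent.Helper4.SQ.GoalsR

/-!
Project SQ (MP_bb32d1_al), stage B, packet SQR-RPOW.
-/

set_option autoImplicit false

namespace Pool.Agent.Helper54.SQ

open Finset

theorem rb_pow {B : Type} [Ring B] [Algebra ℂ B] (r a b : B) (w : ℂ)
    (h1 : r * b = a * r + w • b) (h2 : a * b = b * a) (k : ℕ) :
    r * b ^ k = a ^ k * r + w • ∑ i ∈ Ico 1 (k + 1), b ^ i * a ^ (k - i) := by
  induction k with
  | zero => simp
  | succ k ih =>
    have hc : ∀ n, a ^ n * b = b * a ^ n := fun n =>
      ((show Commute a b from h2).pow_left n).eq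
    rw [pow_succ, ← mul_assoc, ih, add_mul, smul_mul_assoc, Finset.sum_mul, mul_assoc, h1, mul_add,
      ← mul_assoc, ← pow_succ, mul_smul_comm, add_assoc, ← smul_add]
    congr 2
    rw [Finset.sum_eq_sum_Ico_succ_bot (show 1 < k + 1 + 1 by omega), pow_one,
      Nat.add_sub_cancel, hc k]
    congr 1
    rw [Finset.sum_Ico_eq_sum_range, Finset.sum_Ico_eq_sum_range]
    have e1 : k + 1 + 1 - (1 + 1) = k := by omega
    have e2 : k + 1 - 1 = k := by omega
    rw [e1, e2]
    refine Finset.sum_congr rfl fun i hi => ?_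
    have e3 : k + 1 - (1 + 1 + i) = k - (1 + i) := by omega
    rw [e3, mul_assoc, hc, ← mul_assoc, ← pow_succ]
    congr 2
    omega

theorem sRPOW : Pool.Agent.Helper4.SQ.S_RPOW := by
  intro B _ _ r a w hr hab k hk
  have h1 : r * (r * a * r) = a * r + w • (r * a * r) := by
    calc r * (r * a * r) = r * r * (a * r) := by simp only [mul_assoc]
      _ = _ := by rw [hr, add_mul, one_mul, smul_mul_assoc, mul_assoc]
  have hb : r * a * r = r * (a * r) := mul_assoc _ _ _
  generalize hbb : r * a * r = b at *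
  have hc : ∀ n, a * b ^ n = b ^ n * a := fun n =>
    ((show Commute a b from hab).pow_right n).eq
  obtain ⟨m, rfl⟩ : ∃ m, k = m + 1 := ⟨k - 1, by omega⟩
  have h3 : b ^ (m + 1) = r * a * (r * b ^ m) := by
    rw [pow_succ', ← mul_assoc (r * a) r, hbb]
  have h4 : ∀ i ∈ Ico 1 (m + 1), r * a * (b ^ i * a ^ (m - i)) =
      a ^ i * r * a ^ (m + 1 - i) + w • ∑ j ∈ Ico 1 (i + 1), b ^ j * a ^ (m + 1 - j) := by
    intro i hi
    rw [Finset.mem_Ico] at hi
    have e : m + 1 - i = m - i + 1 := by omega
    calc r * a * (b ^ i * a ^ (m - i)) = r * (a * b ^ i) * a ^ (m - i) := by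
          simp only [mul_assoc]
      _ = (r * b ^ i) * a ^ (m + 1 - i) := by
          rw [hc, e, pow_succ' a (m - i)]
          simp only [mul_assoc]
      _ = _ := by
          rw [rb_pow r a b w h1 hab i, add_mul, smul_mul_assoc, Finset.sum_mul]
          congr 2
          refine Finset.sum_congr rfl fun j hj => ?_
          rw [Finset.mem_Ico] at hj
          rw [mul_assoc, ← pow_add]
          congr 2
          omega
  rw [h3, rb_pow r a b w h1 hab m, mul_add, mul_smul_comm, Finset.mul_sum,
    Finset.sum_congr rfl h4, Finset.sum_add_distrib, smul_add, ← Finset.smul_sum, smul_smul,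
    ← sq w, ← add_assoc]
  congr 1
  · congr 1
    rw [pow_succ']
    simp only [mul_assoc]
  · congr 1
    rw [Finset.sum_comm' (s' := fun j => Ico j (m + 1)) (t' := Ico 1 (m + 1))]
    · refine Finset.sum_congr rfl fun j _ => ?_
      rw [Finset.sum_const, Nat.card_Ico, Nat.cast_smul_eq_nsmul]
    · intro x y
      simp only [Finset.mem_Ico]
      omega

end Pool.Agent.Helper54.SQ
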