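import Pool.Agent.Helper41.SQ.GoalsN

/-!
Project SQ (MP_bb32d1_al), stage B, packet SQN-REL.
-/

set_option autoImplicit false
set_option linter.unusedSectionVars false

namespace Pool.Agent.Helper54.SQN

noncomputable section

open Matrix Pool.Agent.Helper41.SQ

variable {ι : Type} [Fintype ι] [DecidableEq ι]

theorem flT_eq (M : Matrix (ι × ι) (ι × ι) ℂ) :
    flT M = (M.submatrix (Equiv.prodComm ι ι) (Equiv.prodComm ι ι))ᵀ := by
  ext x y
  rfl

theorem flT_mul (M N : Matrix (ι × ι) (ι × ι) ℂ) : flT (M * N) = flT N * flT M := by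
  rw [flT_eq, flT_eq, flT_eq, ← Matrix.transpose_mul, Matrix.submatrix_mul_equiv]

theorem flT_one : flT (1 : Matrix (ι × ι) (ι × ι) ℂ) = 1 := by
  rw [flT_eq, Matrix.submatrix_one_equiv, Matrix.transpose_one]

theorem flT_add (M N : Matrix (ι × ι) (ι × ι) ℂ) : flT (M + N) = flT M + flT N := by
  ext x y
  rfl

theorem flT_smul (c : ℂ) (M : Matrix (ι × ι) (ι × ι) ℂ) : flT (c • M) = c • flT M := by
  ext x y
  rfl

/-- rotation of the three factors. -/
def fE (ι : Type) : ι × (ι × ι) ≃ ι × (ι × ι) where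
  toFun x := (x.2.2, (x.1, x.2.1))
  invFun x := (x.2.1, (x.2.2, x.1))
  left_inv _ := rfl
  right_inv _ := rfl

/-- reversal of the three factors. -/
def gE (ι : Type) : ι × (ι × ι) ≃ ι × (ι × ι) where
  toFun x := (x.2.2, (x.2.1, x.1))
  invFun x := (x.2.2, (x.2.1, x.1))
  left_inv _ := rfl
  right_inv _ := rfl

theorem r23_eq (M : Matrix (ι × ι) (ι × ι) ℂ) : r23 M = bdG (A := ℂ) ι M := by
  ext x y
  rfl

theorem r12_eq (M : Matrix (ι × ι) (ι × ι) ℂ) :
    r12 M = (bdG (A := ℂ) ι M).submatrix (fE ι) (fE ι) := by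
  ext x y
  rfl

theorem r23_mul (M N : Matrix (ι × ι) (ι × ι) ℂ) : r23 (M * N) = r23 M * r23 N := by
  rw [r23_eq, r23_eq, r23_eq, map_mul]

theorem r23_one : r23 (1 : Matrix (ι × ι) (ι × ι) ℂ) = 1 := by
  rw [r23_eq, map_one]

theorem r12_mul (M N : Matrix (ι × ι) (ι × ι) ℂ) : r12 (M * N) = r12 M * r12 N := by
  rw [r12_eq, r12_eq, r12_eq, map_mul, Matrix.submatrix_mul_equiv]

theorem r12_one : r12 (1 : Matrix (ι × ι) (ι × ι) ℂ) = 1 := by
  rw [r12_eq, map_one, Matrix.submatrix_one_equiv]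

/-- reversal and transpose. -/
def FF (M : Matrix (ι × (ι × ι)) (ι × (ι × ι)) ℂ) : Matrix (ι × (ι × ι)) (ι × (ι × ι)) ℂ :=
  (M.submatrix (gE ι) (gE ι))ᵀ

theorem FF_mul (M N : Matrix (ι × (ι × ι)) (ι × (ι × ι)) ℂ) : FF (M * N) = FF N * FF M := by
  unfold FF
  rw [← Matrix.transpose_mul, Matrix.submatrix_mul_equiv]

theorem r12_flT (M : Matrix (ι × ι) (ι × ι) ℂ) : r12 (flT M) = FF (r23 M) := by
  ext x y
  simp only [r12, r23, flT, FF, gE, Matrix.of_apply, Matrix.transpose_apply,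
    Matrix.submatrix_apply, Equiv.coe_fn_mk]
  by_cases h : x.2.2 = y.2.2
  · rw [if_pos h, if_pos h.symm]
  · rw [if_neg h, if_neg (Ne.symm h)]

theorem r23_flT (M : Matrix (ι × ι) (ι × ι) ℂ) : r23 (flT M) = FF (r12 M) := by
  ext x y
  simp only [r12, r23, flT, FF, gE, Matrix.of_apply, Matrix.transpose_apply,
    Matrix.submatrix_apply, Equiv.coe_fn_mk]
  by_cases h : x.1 = y.1
  · rw [if_pos h, if_pos h.symm]
  · rw [if_neg h, if_neg (Ne.symm h)]

theorem n_rel : Pool.Agent.Helper41.SQ.S_REL := by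
  intro ι _ _ Sc T ω hq hT
  have h0 : RE T = flT (Sc - ω • (1 : Matrix (ι × ι) (ι × ι) ℂ)) := by
    ext x y
    exact hT x.1 x.2 y.1 y.2
  set B := Sc - ω • (1 : Matrix (ι × ι) (ι × ι) ℂ) with hB
  have h1 : B * Sc = 1 := by
    rw [hB, sub_mul, hq, smul_mul_assoc, one_mul, add_sub_cancel_right]
  have h2 : Sc * B = 1 := by
    rw [hB, mul_sub, hq, mul_smul_comm, mul_one, add_sub_cancel_right]
  have h3 : B * B = 1 + (-ω) • B := by
    have : B * B = B * Sc - ω • B := by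
      conv_lhs => rw [show B * B = B * (Sc - ω • (1 : Matrix (ι × ι) (ι × ι) ℂ)) from rfl]
      rw [mul_sub, mul_smul_comm, mul_one]
    rw [this, h1, neg_smul, sub_eq_add_neg]
  refine ⟨h0, ?_, ?_, ?_, fun hbr => ?_⟩
  · rw [h0, ← flT_mul, h3, flT_add, flT_one, flT_smul]
  · rw [h0, ← flT_mul, h2, flT_one]
  · rw [h0, ← flT_mul, h1, flT_one]
  · rw [h0, r12_flT, r23_flT, ← FF_mul, ← FF_mul, ← FF_mul, ← FF_mul]
    congr 1
    let ua : (Matrix (ι × (ι × ι)) (ι × (ι × ι)) ℂ)ˣ :=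
      ⟨r12 Sc, r12 B, by rw [← r12_mul, h2, r12_one], by rw [← r12_mul, h1, r12_one]⟩
    let ub : (Matrix (ι × (ι × ι)) (ι × (ι × ι)) ℂ)ˣ :=
      ⟨r23 Sc, r23 B, by rw [← r23_mul, h2, r23_one], by rw [← r23_mul, h1, r23_one]⟩
    have h4 : ua * ub * ua = ub * ua * ub := Units.ext hbr
    have h5 := congrArg (fun u => ((u⁻¹ : (Matrix (ι × (ι × ι)) (ι × (ι × ι)) ℂ)ˣ) :
      Matrix (ι × (ι × ι)) (ι × (ι × ι)) ℂ)) h4
    simp only [_root_.mul_inv_rev, Units.val_mul] at h5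
    have h6 : r12 B * (r23 B * r12 B) = r23 B * (r12 B * r23 B) := h5
    first
      | exact h6
      | exact h6.symm

end

end Pool.Agent.Helper54.SQN
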